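import Pool.Agent.Helper89_AQT.PTQ
import Pool.Agent.Helper64_SZT.SMS
import Pool.Agent.Helper6_SZT.ODN
import Pool.Agent.Helper78_SZT.ODA
import Pool.Agent.Helper77_SZT.OKN
import Pool.Agent.Helper24_SZT.OKA
import Pool.Agent.Helper2_SZT.TRF
import Pool.Agent.Helper90_SZT.AOT
import Pool.Agent.Helper94_MNT.A1G
import Pool.Agent.Helper75_BHT.A2

set_option autoImplicit false

/-! AQT, rows CMQ and AOQ: the one-place bound with the constants 1/4 and 2. -/

namespace Pool.Agent.AQT.H89

open Polynomial Pool.Agent.SZT Pool.Agent.AQT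
open Pool.Agent.MNT (QU vC)
open scoped Classical

/-- the sum of all stars is the discriminant -/
theorem stars_dsc {E : Type} [Field E] (v : AbsoluteValue E ℝ) (θ : Fin 5 → E)
    (hinj : Function.Injective θ) (ℓ : ℝ) :
    ∑ k, star (fun l => ℓ - Real.log (v (θ k - θ l))) k = 20 * ℓ - Real.log (v (dsc θ)) := by
  have hpos : ∀ i j, i ≠ j → 0 < v (θ i - θ j) := fun i j hij =>
    v.pos (sub_ne_zero.2 fun h => hij (hinj h))
  have hsym : ∀ i j, Real.log (v (θ i - θ j)) = Real.log (v (θ j - θ i)) := fun i j => by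
    rw [v.map_sub]
  have h01 := hpos 0 1 (by decide)
  have h02 := hpos 0 2 (by decide)
  have h03 := hpos 0 3 (by decide)
  have h04 := hpos 0 4 (by decide)
  have h12 := hpos 1 2 (by decide)
  have h13 := hpos 1 3 (by decide)
  have h14 := hpos 1 4 (by decide)
  have h23 := hpos 2 3 (by decide)
  have h24 := hpos 2 4 (by decide)
  have h34 := hpos 3 4 (by decide)
  have hd : Real.log (v (dsc θ)) = 2 * (Real.log (v (θ 0 - θ 1)) + Real.log (v (θ 0 - θ 2)) +
      Real.log (v (θ 0 - θ 3)) + Real.log (v (θ 0 - θ 4)) + Real.log (v (θ 1 - θ 2)) +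
      Real.log (v (θ 1 - θ 3)) + Real.log (v (θ 1 - θ 4)) + Real.log (v (θ 2 - θ 3)) +
      Real.log (v (θ 2 - θ 4)) + Real.log (v (θ 3 - θ 4))) := by
    rw [H64.dsc_eq, map_pow, Real.log_pow]
    simp only [map_mul]
    rw [Real.log_mul (by positivity) h34.ne', Real.log_mul (by positivity) h24.ne',
      Real.log_mul (by positivity) h23.ne', Real.log_mul (by positivity) h14.ne',
      Real.log_mul (by positivity) h13.ne', Real.log_mul (by positivity) h12.ne',
      Real.log_mul (by positivity) h04.ne', Real.log_mul (by positivity) h03.ne',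
      Real.log_mul h01.ne' h02.ne']
    push_cast
    ring
  simp only [star_eq, Fin.sum_univ_five]
  rw [hd, hsym 1 0, hsym 2 0, hsym 3 0, hsym 4 0, hsym 2 1, hsym 3 1, hsym 4 1, hsym 3 2,
    hsym 4 2, hsym 4 3]
  ring

theorem cmq : CmqStmt := by
  intro E _ v c₀ e hQ he θ a N U W hθ hU hSol hG hne ρ hρ hd
  have hc := hQ.1
  obtain ⟨i, hi⟩ := Finite.exists_min (fun k => v (a 0 - θ k))
  obtain ⟨j, hj⟩ := Finite.exists_min (fun k => v (a 1 - θ k))
  have h0 := ptq E v c₀ e hQ he θ a N U W hθ hU hSol hG ρ hρ hd 0 i hne hi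
  have h1 := ptq E v c₀ e hQ he θ a N U W hθ hU hSol hG ρ hρ hd 1 j hne hj
  have e10 : (1 - 0 : Fin 2) = 1 := rfl
  have e11 : (1 - 1 : Fin 2) = 0 := rfl
  rw [e10] at h0
  rw [e11] at h1
  set ℓ : ℝ := c₀ + Real.log ρ with hℓ
  set H : Fin 5 → Fin 5 → ℝ := fun k l => ℓ - Real.log (v (θ k - θ l)) with hH
  have hpos : ∀ k l, k ≠ l → 0 < v (θ k - θ l) := fun k l hkl =>
    v.pos (sub_ne_zero.2 fun h => hkl (hθ h))
  have hap : ∀ l k, 0 < v (a l - θ k) := fun l k => v.pos (sub_ne_zero.2 (hne l k))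
  -- the ultrametric inequality for depths
  have hul : ∀ x y z : E, 0 < v (x + y) → 0 < v x → 0 < v y → z = x + y →
      min (ℓ - Real.log (v x)) (ℓ - Real.log (v y)) - c₀ ≤ ℓ - Real.log (v z) := by
    intro x y z hxy hx hy hz
    rw [hz]
    have h2 := Real.log_le_log hxy (hQ.2 x y)
    rw [Real.log_mul (Real.exp_pos _).ne' (lt_max_of_lt_left hx).ne', Real.log_exp] at h2
    rcases le_total (v x) (v y) with h | h
    · rw [max_eq_right h] at h2
      have h3 := min_le_right (ℓ - Real.log (v x)) (ℓ - Real.log (v y))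
      linarith
    · rw [max_eq_left h] at h2
      have h3 := min_le_left (ℓ - Real.log (v x)) (ℓ - Real.log (v y))
      linarith
  have hp := pui H i j c₀ (ℓ - Real.log (v (a 0 - θ i))) (ℓ - Real.log (v (a 1 - θ j)))
    (ℓ - Real.log (v (a 1 - θ i))) (ℓ - Real.log (v (a 0 - θ j))) hc
    (fun k l => by simp only [hH]; rw [v.map_sub])
    (fun k l hkl => by
      have h2 := Real.log_le_log (hpos k l hkl) (hd k l)
      simp only [hH]
      linarith)
    (fun k l m hkl hlm hkm => by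
      refine hul (θ k - θ l) (θ l - θ m) (θ k - θ m) ?_ (hpos k l hkl) (hpos l m hlm) (by ring)
      have : θ k - θ l + (θ l - θ m) = θ k - θ m := by ring
      rw [this]
      exact hpos k m hkm)
    (fun hij => by rw [hij]; exact ⟨rfl, rfl⟩)
    (fun hij => by
      constructor
      · have h2 := hul (a 1 - θ j) (θ j - θ i) (a 1 - θ i) (by
          have : a 1 - θ j + (θ j - θ i) = a 1 - θ i := by ring
          rw [this]
          exact hap 1 i) (hap 1 j) (hpos j i (Ne.symm hij)) (by ring)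
        simp only [hH]
        rwa [v.map_sub (θ i) (θ j)]
      · exact hul (a 0 - θ i) (θ i - θ j) (a 0 - θ j) (by
          have : a 0 - θ i + (θ i - θ j) = a 0 - θ j := by ring
          rw [this]
          exact hap 0 j) (hap 0 i) (hpos i j hij) (by ring))
  have hs := stars_dsc v θ hθ ℓ
  have hs' : ∑ k, star (H k) k = 20 * ℓ - Real.log (v (dsc θ)) := hs
  rw [hs'] at hp
  rw [Fin.sum_univ_two]
  linarith

theorem aoq : AoqStmt := by
  refine ⟨2, 11 * Real.log 2 + 2 * Real.log 128, by norm_num, ?_, ?_, ?_⟩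
  · have h1 : 0 ≤ Real.log 2 := Real.log_nonneg (by norm_num)
    have h2 : 0 ≤ Real.log 128 := Real.log_nonneg (by norm_num)
    linarith
  · intro L _ v θ A U W M hna h2 hinj hmon hdeg hAs hUs hcop hM hMe heq
    obtain ⟨a, N, -, hsol, hne, hLv⟩ := H2.trf L v θ A U W M h2 hmon hdeg hAs hcop hM hMe heq
    have hg := H77.okn H6.odn L v hna θ a N U W hinj hUs hsol
    have hQ : QU v 0 := by
      refine ⟨le_rfl, fun a b => ?_⟩
      rw [Real.exp_zero, one_mul]
      exact hna a b
    have h3 := cmq L v 0 0 hQ le_rfl θ a N U W hinj hUs hsol hg hne (rho v θ)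
      (H90.rho_pos v θ hinj) (H90.le_rho v θ)
    rw [hLv]
    have hv2 : Real.log (v 2) ≤ 0 := by
      apply Real.log_nonpos (v.nonneg _)
      have h4 := hna 1 1
      rw [map_one, max_self] at h4
      have e : (1 : L) + 1 = 2 := by norm_num
      rwa [e] at h4
    obtain ⟨h5, -⟩ := H90.inv_le_one hsol.pos
    have h6 : 1 / (N : ℝ) * Real.log (v 2) ≤ 0 := mul_nonpos_of_nonneg_of_nonpos h5 hv2
    have e : (2 - 1 / (N : ℝ)) * Real.log (v 2)
        = 2 * Real.log (v 2) - 1 / (N : ℝ) * Real.log (v 2) := by ring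
    rw [e]
    linarith
  · intro θ A U W M hinj hmon hdeg hcop hM hMe heq
    obtain ⟨a, N, -, hsol, hne, hLv⟩ := H2.trf ℂ vC θ A U W M (by norm_num) hmon hdeg
      (IsAlgClosed.splits A) hcop hM hMe heq
    have hg := H24.oka (H78.oda Pool.Agent.MNT.H94.a1g BHT.a2) θ a N U W hinj hsol
    have hQ : QU vC (Real.log 2) := by
      refine ⟨Real.log_nonneg (by norm_num), fun a b => ?_⟩
      rw [Real.exp_log (by norm_num)]
      show ‖a + b‖ ≤ 2 * max ‖a‖ ‖b‖
      have h1 := norm_add_le a b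
      have h2 := le_max_left ‖a‖ ‖b‖
      have h3 := le_max_right ‖a‖ ‖b‖
      linarith
    have h128 : 0 ≤ 2 * Real.log 128 := mul_nonneg (by norm_num) (Real.log_nonneg (by norm_num))
    have h3 := cmq ℂ vC (Real.log 2) (2 * Real.log 128) hQ h128 θ a N U W hinj
      (IsAlgClosed.splits U) hsol hg hne (rho vC θ) (H90.rho_pos vC θ hinj) (H90.le_rho vC θ)
    have h4 : Lv (fun z : ℂ => ‖z‖) (∏ i, (X - C (θ i))) A U M
        = Lv vC (∏ i, (X - C (θ i))) A U M := rfl
    have h5 : rho (fun z : ℂ => ‖z‖) θ = rho vC θ := rfl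
    have h6 : ‖dsc θ‖ = vC (dsc θ) := rfl
    rw [h4, h5, h6, hLv]
    have hv2 : vC 2 = 2 := by
      show ‖(2 : ℂ)‖ = 2
      simp
    obtain ⟨-, h7⟩ := H90.inv_le_one hsol.pos
    have h8 : 0 ≤ (2 - 1 / (N : ℝ)) * Real.log (vC 2) := by
      apply mul_nonneg
      · linarith
      · rw [hv2]
        exact Real.log_nonneg (by norm_num)
    linarith

end Pool.Agent.AQT.H89
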