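import Pool.Agent.Helper89_AQT.CMQ
import Pool.Agent.Helper95_SZT.LIF
import Pool.Agent.Helper25_SZT.LFN
import Pool.Agent.Helper88_SZT.MSM
import Pool.Agent.Helper44_SZT.FIN

set_option autoImplicit false

/-! AQT, rows LIQ, LFQ, MSQ, FIQ (the proofs of SZT with the new constants). -/

namespace Pool.Agent.AQT.H89

open Polynomial NumberField H58Q Pool.Agent.SZT Pool.Agent.AQT

theorem liq (aot : AoqStmt) (dsr : DsrStatement) : LiqStmt := by
  obtain ⟨c2, ci, -, hci, -, hC⟩ := aot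
  refine ⟨ci, hci, ?_⟩
  intro K _ _ v f A B U W M hf h5 hs hG hAU hM hMe hP
  obtain ⟨θ, hθ⟩ := H69.exists_theta (hf.map v.embedding) (by rw [hf.natDegree_map, h5])
  have hinj : Function.Injective θ := by
    rw [← separable_prod_X_sub_C_iff, ← hθ]
    exact (PerfectField.separable_iff_squarefree.2 hs).map
  have hAm := hG.monic
  have hcop : IsCoprime (A.map v.embedding) (U.map v.embedding) :=
    hAU.map (mapRingHom v.embedding)
  have hP' : (U.map v.embedding) ^ 2 - (∏ i, (X - C (θ i))) * (W.map v.embedding) ^ 2 =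
      (A.map v.embedding) ^ M := by
    rw [← hθ, ← Polynomial.map_pow, ← Polynomial.map_pow, ← Polynomial.map_pow,
      ← Polynomial.map_mul, ← Polynomial.map_sub, hP]
  have h := hC θ (A.map v.embedding) (U.map v.embedding) (W.map v.embedding) M hinj
    (hAm.map _) (by rw [hAm.natDegree_map, hG.two]) hcop hM hMe hP'
  have h1 : ‖dsc θ‖ = v (discr f) := by
    rw [← InfinitePlace.norm_embedding_eq, ← H69.discr_map_five _ hf h5, hθ]
    rcases dsr ℂ θ with h | h <;> rw [h]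
    rw [norm_neg]
  have h2 : rho (fun z : ℂ => ‖z‖) θ = spr (f.map v.embedding) := by
    rw [hθ]
    exact H95.rho_eq_spr
  have h3 : Lv (fun z : ℂ => ‖z‖) (∏ i, (X - C (θ i))) (A.map v.embedding)
      (U.map v.embedding) M = Lv v f A U M := by
    rw [← hθ]
    unfold Lv
    have e1 : (4 * f.map v.embedding : ℂ[X]) = (4 * f).map v.embedding := by
      rw [Polynomial.map_mul, Polynomial.map_ofNat]
    have e2 : (2 * U.map v.embedding : ℂ[X]) = (2 * U).map v.embedding := by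
      rw [Polynomial.map_mul, Polynomial.map_ofNat]
    rw [e1, e2, H95.res_map, H95.res_map]
    simp only [InfinitePlace.norm_embedding_eq]
  rw [h1, h2, h3] at h
  exact h

theorem lfq (aot : AoqStmt) (dsr : DsrStatement) (ext1 : UBT.Ext1Stmt)
    (ev : BHT.EVStmt) : LfqStmt := by
  obtain ⟨c2, ci, hc2, -, haot, -⟩ := aot
  refine ⟨c2, hc2, ?_⟩
  intro K _ _ v f A B U W M hf h5 hsq hint hG hcU hM hMe heq
  have hU0 : U ≠ 0 := by
    rintro rfl
    rw [isCoprime_zero_right] at hcU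
    have h1 := natDegree_eq_zero_of_isUnit hcU
    rw [hG.two] at h1
    omega
  have hfA : f * A * U ≠ 0 := mul_ne_zero (mul_ne_zero hf.ne_zero hG.monic.ne_zero) hU0
  obtain ⟨E, _, _, _, hsp, -⟩ := ext1 K (f * A * U) hfA
  obtain ⟨v', hna, hv'⟩ := ev K E v
  set φ : K →+* E := algebraMap K E with hφ
  rw [Polynomial.map_mul, Polynomial.map_mul] at hsp
  have hfm : (f.map φ).Monic := hf.map φ
  have hAm : (A.map φ).Monic := hG.monic.map φ
  have hUm : U.map φ ≠ 0 := (Polynomial.map_ne_zero_iff φ.injective).2 hU0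
  obtain ⟨hsp', hsU⟩ := (splits_mul (mul_ne_zero hfm.ne_zero hAm.ne_zero) hUm).1 hsp
  obtain ⟨hsf, hsA⟩ := (splits_mul hfm.ne_zero hAm.ne_zero).1 hsp'
  have h5' : (f.map φ).natDegree = 5 := by rw [hf.natDegree_map, h5]
  obtain ⟨θ, hθ⟩ := H25.exists_theta25 hsf hfm h5'
  have hsep : (f.map φ).Separable := (PerfectField.separable_iff_squarefree.2 hsq).map
  have hinj : Function.Injective θ := H25.theta_inj25 (hθ ▸ hsep)
  have hcop : IsCoprime (A.map φ) (U.map φ) := hcU.map (mapRingHom φ)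
  have heq' : (U.map φ) ^ 2 - (∏ i, (X - C (θ i))) * (W.map φ) ^ 2 = (A.map φ) ^ M := by
    rw [← hθ, ← Polynomial.map_pow, ← Polynomial.map_pow, ← Polynomial.map_pow,
      ← Polynomial.map_mul, ← Polynomial.map_sub, heq]
  have hmain := haot E v' θ (A.map φ) (U.map φ) (W.map φ) M hna two_ne_zero hinj hAm
    (by rw [hG.monic.natDegree_map]; exact hG.two) hsA hsU hcop hM hMe heq'
  rw [← hθ, H25.lv_map25 φ v v' hv' f A U M] at hmain
  have h2 : v' 2 = v 2 := by
    have h3 : φ 2 = 2 := map_ofNat φ 2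
    rw [← hv' 2, h3]
  have hd : v' (dsc θ) = v (discr f) := by
    rw [← hv' (discr f), ← H25.discr_map_five25 φ hf h5, hθ]
    rcases dsr E θ with h | h
    · rw [h]
    · rw [h, v'.map_neg]
  have hroot : ∀ i, v' (θ i) ≤ 1 := by
    intro i
    refine H25.root_le25 v' hna hfm h5' (fun n => ?_) (x := θ i) ?_
    · rw [coeff_map, hv']; exact hint n
    · rw [hθ, eval_prod]
      exact Finset.prod_eq_zero (Finset.mem_univ i) (by simp)
  have hrho0 : 0 ≤ rho v' θ := Real.iSup_nonneg fun p => v'.nonneg _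
  have hrho1 : rho v' θ ≤ 1 := by
    refine ciSup_le fun p => ?_
    rw [sub_eq_add_neg]
    refine (hna _ _).trans (max_le (hroot _) ?_)
    rw [v'.map_neg]
    exact hroot _
  have hlog : Real.log (rho v' θ) ≤ 0 := Real.log_nonpos hrho0 hrho1
  rw [hd, h2] at hmain
  linarith

/-- the sum over all places, for one good multiple. -/
theorem coreq {K : Type} [Field K] [NumberField K] (hPFS : PfsStatement) (f A U : K[X]) (M : ℕ)
    (ci c2 : ℝ) (S : Finset (FinitePlace K)) (F : FinitePlace K → ℝ) (hD0 : discr f ≠ 0)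
    (hI : ∀ v : InfinitePlace K, (1 / 4) * Real.log (v (discr f))
      - 2 * Real.log (spr (f.map v.embedding)) - ci ≤ Lv v f A U M)
    (hF : ∀ v : FinitePlace K, (1 / 4) * Real.log (v (discr f)) + c2 * Real.log (v (2 : K))
      ≤ Lv v f A U M)
    (hS2 : ∀ v ∈ S, v (2 : K) = 1)
    (hSB : ∀ v ∈ S, Real.log (v (discr f)) * F v ≤ Lv v f A U M)
    (hAf : IsCoprime A f) (hAU : IsCoprime A U) :
    (1 / 4) * (- ∑ v ∈ S, Real.log (v (discr f))) - 2 * lH f
      - (ci + c2 * Real.log 2) * Module.finrank ℚ K ≤ ∑ v ∈ S, (- Real.log (v (discr f))) * F v := by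
  classical
  obtain ⟨T0, hT0⟩ := hPFS K f A U M hAf hAU
  obtain ⟨T1, hT1⟩ := H88M.fin_supp (K := K) hD0
  obtain ⟨T2, hT2⟩ := H88M.fin_supp (K := K) (x := 2) two_ne_zero
  set T := ((T0 ∪ T1) ∪ T2) ∪ S with hT
  have hST : S ⊆ T := Finset.subset_union_right
  have h0 := hT0 T (by
    intro v hv
    simp only [hT, Finset.mem_union]
    exact Or.inl (Or.inl (Or.inl hv)))
  have hd := H88M.logprod hD0 T (fun v hv => by
    simp only [hT, Finset.mem_union]
    exact Or.inl (Or.inl (Or.inr (hT1 v hv))))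
  have h2 := H88M.log_two (K := K) T (fun v hv => by
    simp only [hT, Finset.mem_union]
    exact Or.inl (Or.inr (hT2 v hv)))
  have hs2 : ∑ v ∈ S, Real.log (v (2 : K)) = 0 :=
    Finset.sum_eq_zero fun v hv => by rw [hS2 v hv, Real.log_one]
  have e1 := Finset.sum_sdiff (f := fun v : FinitePlace K => Lv v f A U M) hST
  have e2 := Finset.sum_sdiff (f := fun v : FinitePlace K => Real.log (v (discr f))) hST
  have e3 := Finset.sum_sdiff (f := fun v : FinitePlace K => Real.log (v (2 : K))) hST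
  have b1 : (1 / 4) * (∑ v : InfinitePlace K, (v.mult : ℝ) * Real.log (v (discr f))) - 2 * lH f
      - ci * Module.finrank ℚ K ≤ ∑ v : InfinitePlace K, (v.mult : ℝ) * Lv v f A U M := by
    have hm : (Module.finrank ℚ K : ℝ) = ∑ v : InfinitePlace K, (v.mult : ℝ) := by
      rw [← Nat.cast_sum, InfinitePlace.sum_mult_eq]
    rw [hm, lH, Finset.mul_sum, Finset.mul_sum, Finset.mul_sum, ← Finset.sum_sub_distrib,
      ← Finset.sum_sub_distrib]
    apply Finset.sum_le_sum
    intro v _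
    have h3 := mul_le_mul_of_nonneg_left (hI v) (Nat.cast_nonneg (α := ℝ) v.mult)
    calc _ = (v.mult : ℝ) * ((1 / 4) * Real.log (v (discr f))
      - 2 * Real.log (spr (f.map v.embedding)) - ci) := by ring
      _ ≤ _ := h3
  have b2 : (1 / 4) * (∑ v ∈ T \ S, Real.log (v (discr f)))
      + c2 * (∑ v ∈ T \ S, Real.log (v (2 : K))) ≤ ∑ v ∈ T \ S, Lv v f A U M := by
    rw [Finset.mul_sum, Finset.mul_sum, ← Finset.sum_add_distrib]
    exact Finset.sum_le_sum fun v _ => hF v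
  have b3 : - (∑ v ∈ S, (- Real.log (v (discr f))) * F v) ≤ ∑ v ∈ S, Lv v f A U M := by
    rw [← Finset.sum_neg_distrib]
    apply Finset.sum_le_sum
    intro v hv
    have := hSB v hv
    linarith
  rw [hs2, add_zero] at e3
  rw [e3, h2] at b2
  rw [← e1] at h0
  rw [← e2] at hd
  have hring : (ci + c2 * Real.log 2) * (Module.finrank ℚ K : ℝ)
    = ci * Module.finrank ℚ K + c2 * (Module.finrank ℚ K * Real.log 2) := by ring
  rw [hring]
  linarith

theorem msq (hCNT : CntStatement) (hPEL : PelStatement) (hPFS : PfsStatement)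
    (hLIF : LiqStmt) (hLFN : LfqStmt) (hBOU : BOutStatement) (hAVG : AvgStatement)
    (hDSH : DshStatement) (hQVN : QvnStatement) : MsqStmt := by
  classical
  obtain ⟨ci, hci, hLIF⟩ := hLIF
  obtain ⟨c2, hc2, hLFN⟩ := hLFN
  have hl2 : 0 ≤ Real.log 2 := Real.log_nonneg (by norm_num)
  refine ⟨ci + c2 * Real.log 2, by positivity, ?_⟩
  intro K _ _ f A₁ B₁ m₀ n₀ N A B S hf hdeg hsq hint hMum hN hm₀ hdiv hP hnP hred hS
  have : Fact (Odd f.natDegree) := ⟨by rw [hdeg]; decide⟩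
  obtain ⟨hD0, hDint, -, -, -, -⟩ := hDSH K f hf hdeg hsq hint
  have hv1 : ∀ (v : FinitePlace K) (n : ℕ), v (f.coeff n) ≤ 1 := fun v n =>
    H88M.le_one_of_isIntegral v (hint n)
  -- the set of the good multiples
  set Gs := (Finset.range N).filter (fun k => Good f (A k) (B k)) with hGs
  have hI0 : (MI f A₁ B₁) ^ m₀ ≠ ⊥ := by
    have h1 : MI f A₁ B₁ ≠ 0 := by
      intro h
      have h2 : (⟨-B₁, 1⟩ : Q K f) ∈ MI f A₁ B₁ := Ideal.subset_span (by simp)
      rw [h] at h2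
      have h3 : (⟨-B₁, 1⟩ : Q K f) = 0 := by simpa using h2
      have h4 := congrArg QuadraticAlgebra.im h3
      simp at h4
    exact pow_ne_zero m₀ h1
  have hcnt : ((Finset.range N).filter (fun k => ¬ Good f (A k) (B k))).card
      ≤ 6 * (Nat.sqrt (2 * N) + 1) + 2 := by
    apply hCNT K f ((MI f A₁ B₁) ^ m₀) N A B two_ne_zero hsq hdeg hI0 hN
    · rw [← pow_mul]; exact hP
    · intro j hj hjN
      rw [← pow_mul]; exact hnP j hj hjN
    · intro k
      rw [← pow_mul]; exact hred k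
    · intro k hk
      rw [Finset.mem_filter, Finset.mem_range] at hk
      exact hk
  refine ⟨Gs.card, ?_, ?_, ?_⟩
  · have h1 : Gs.card + ((Finset.range N).filter (fun k => ¬ Good f (A k) (B k))).card
        = (Finset.range N).card := Finset.card_filter_add_card_filter_not _
    rw [Finset.card_range] at h1
    omega
  · have h1 := Finset.card_filter_le (Finset.range N) (fun k => Good f (A k) (B k))
    rw [Finset.card_range] at h1
    exact h1
  -- the places of `S`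
  have hB : ∀ v : FinitePlace K, ∃ (n : ℕ) (s : ℝ), v ∈ S → (0 < n ∧
      v (discr f) * (Ideal.absNorm v.maximalIdeal.asIdeal : ℝ) ^ n = 1 ∧
      (∃ m : ℤ, ((m₀ * N : ℕ) : ℝ) * s = m) ∧ (∃ m : ℤ, (n : ℝ) * s = m) ∧
      ∀ (k : ℕ) (A B U W : K[X]) (M : ℕ), Good f A B →
        SameCl (MI f A B) ((MI f A₁ B₁) ^ k) → 0 < M → Even M →
        (MI f A B) ^ M = Ideal.span {(⟨U, W⟩ : Q K f)} → U ^ 2 - f * W ^ 2 = A ^ M →
        Real.log (v (discr f)) * H88M.Fr (k * s) ≤ Lv v f A U M) := by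
    intro v
    by_cases hv : v ∈ S
    · obtain ⟨hnode, hlt⟩ := hS v hv
      obtain ⟨n, hn, hq⟩ := hQVN K v (discr f) hD0 hlt
      obtain ⟨s, hs1, hs2, hs3⟩ := hBOU K v f n hf hdeg hsq hnode hn hq A₁ B₁ (m₀ * N) hMum
        (Nat.mul_pos hm₀ hN) hP
      exact ⟨n, s, fun _ => ⟨hn, hq, hs1, hs2, hs3⟩⟩
    · exact ⟨0, 0, fun h => absurd h hv⟩
  choose n s hB using hB
  set S' := S.filter (fun v => v (discr f) * (Ideal.absNorm v.maximalIdeal.asIdeal : ℝ) ^ n₀ < 1)
    with hS'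
  have hvan : ∀ v ∈ S, v ∉ S' → ∀ k : ℕ, H88M.Fr (((m₀ * k : ℕ) : ℝ) * s v) = 0 := by
    intro v hv hv' k
    obtain ⟨hn, hq, -, ⟨m, hm⟩, -⟩ := hB v hv
    have hlt := (hS v hv).2
    have h1 : ¬ (v (discr f) * (Ideal.absNorm v.maximalIdeal.asIdeal : ℝ) ^ n₀ < 1) := by
      intro h
      exact hv' (Finset.mem_filter.mpr ⟨hv, h⟩)
    rw [not_lt] at h1
    have hD : 0 < v (discr f) := FinitePlace.pos_iff.mpr hD0
    set q : ℝ := (Ideal.absNorm v.maximalIdeal.asIdeal : ℝ) with hqdef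
    have hq0 : 0 ≤ q := Nat.cast_nonneg _
    have hq1 : 1 < q := by
      by_contra hcon
      rw [not_lt] at hcon
      have h2 : q ^ n v ≤ 1 := pow_le_one₀ hq0 hcon
      have h3 : v (discr f) * q ^ n v ≤ v (discr f) * 1 := mul_le_mul_of_nonneg_left h2 hD.le
      rw [hq] at h3
      linarith
    have hle : n v ≤ n₀ := by
      rw [← hq] at h1
      have h2 := le_of_mul_le_mul_left h1 hD
      exact (pow_le_pow_iff_right₀ hq1).mp h2
    obtain ⟨d, hd⟩ := hdiv (n v) hn hle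
    apply H88M.Fr_int _ (d * k * m)
    rw [hd]
    push_cast
    rw [← hm]
    ring
  have hone : ∀ k ∈ Gs, (1 / 4) * (- ∑ v ∈ S, Real.log (v (discr f))) - 2 * lH f
      - (ci + c2 * Real.log 2) * Module.finrank ℚ K
        ≤ ∑ v ∈ S', (- Real.log (v (discr f))) * H88M.Fr (((m₀ * k : ℕ) : ℝ) * s v) := by
    intro k hk
    have hgood : Good f (A k) (B k) := (Finset.mem_filter.mp hk).2
    have hprin : ((MI f (A k) (B k)) ^ (2 * N)).IsPrincipal :=
      H88M.principal_of_same f (MI f A₁ B₁) (MI f (A k) (B k)) m₀ N k (hred k).2.2 hP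
    obtain ⟨U, W, hspan, hpell, hcop⟩ := hPEL K f (A k) (B k) (2 * N) two_ne_zero hsq hdeg hgood
      (by omega) hprin
    have hev : Even (2 * N) := ⟨N, by ring⟩
    have h := coreq hPFS f (A k) U (2 * N) ci c2 S (fun v => H88M.Fr (((m₀ * k : ℕ) : ℝ) * s v)) hD0
      (fun v => hLIF K v f (A k) (B k) U W (2 * N) hf hdeg hsq hgood hcop (by omega) hev hpell)
      (fun v => hLFN K v f (A k) (B k) U W (2 * N) hf hdeg hsq (hv1 v) hgood hcop (by omega) hev hpell)
      (fun v hv => (hS v hv).1.1)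
      (fun v hv => (hB v hv).2.2.2.2 (m₀ * k) (A k) (B k) U W (2 * N) hgood (hred k).2.2 (by omega)
        hev hspan hpell)
      hgood.cop hcop
    refine h.trans (le_of_eq ?_)
    symm
    apply Finset.sum_subset (Finset.filter_subset _ _)
    intro v hv hv'
    rw [hvan v hv hv' k, mul_zero]
  have hsum := Finset.sum_le_sum hone
  rw [Finset.sum_const, nsmul_eq_mul] at hsum
  refine hsum.trans ?_
  rw [Finset.sum_comm, ← Finset.sum_neg_distrib, Finset.mul_sum]
  apply Finset.sum_le_sum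
  intro v hv
  have hvS : v ∈ S := Finset.mem_of_mem_filter v hv
  have hlog : 0 ≤ - Real.log (v (discr f)) := by
    have := Real.log_nonpos (apply_nonneg v (discr f)) (hS v hvS).2.le
    linarith
  rw [← Finset.mul_sum, mul_comm (N / 6 : ℝ)]
  apply mul_le_mul_of_nonneg_left _ hlog
  obtain ⟨-, -, ⟨m, hm⟩, -, -⟩ := hB v hvS
  calc ∑ k ∈ Gs, H88M.Fr (((m₀ * k : ℕ) : ℝ) * s v)
      ≤ ∑ k ∈ Finset.range N, H88M.Fr (((m₀ * k : ℕ) : ℝ) * s v) :=
        Finset.sum_le_sum_of_subset_of_nonneg (Finset.filter_subset _ _) (fun _ _ _ => H88M.Fr_nonneg _)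
    _ = ∑ k ∈ Finset.range N, Int.fract (k * (m₀ * s v)) * (1 - Int.fract (k * (m₀ * s v))) := by
        apply Finset.sum_congr rfl
        intro k _
        have : (((m₀ * k : ℕ) : ℝ) * s v) = k * (m₀ * s v) := by push_cast; ring
        rw [this, H88M.Fr]
    _ ≤ N / 6 := by
        apply hAVG N (m₀ * s v) hN
        refine ⟨m, ?_⟩
        rw [← hm]
        push_cast
        ring

theorem num_coreq {h T T' R C ε n0 d' d G N : ℝ} (hε : 0 < ε) (hn0 : 160 / ε ≤ n0)
    (hT' : 0 ≤ T') (hTT : T' ≤ T) (hT : T ≤ 20 * h)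
    (hR : R ≤ (T - T') + T' / n0) (hG : 0 < G) (hGN : N ≤ (1 + ε / 160) * G)
    (hms : G * ((1 / 4) * T - 2 * h - C * d') ≤ (N / 6) * T') (hC : 0 ≤ C) (hd : d' ≤ d)
    (hmain : (24 + ε) * h ≤ 2 * R + T) : h ≤ 24 * C * d / ε := by
  have h1 : (1 / 4) * T - 2 * h - C * d' ≤ (1 + ε / 160) / 6 * T' := by
    have h2 : (N / 6) * T' ≤ G * ((1 + ε / 160) / 6 * T') := by
      have h3 : (N / 6) * T' ≤ ((1 + ε / 160) * G / 6) * T' :=
        mul_le_mul_of_nonneg_right (by linarith) hT'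
      calc (N / 6) * T' ≤ ((1 + ε / 160) * G / 6) * T' := h3
        _ = G * ((1 + ε / 160) / 6 * T') := by ring
    exact le_of_mul_le_mul_left (hms.trans h2) hG
  have hn : 0 < n0 := lt_of_lt_of_le (by positivity) hn0
  have h2 : T' / n0 ≤ ε / 160 * T' := by
    rw [div_le_iff₀ hn]
    have h3 : 1 ≤ ε / 160 * n0 := by
      have h4 := mul_le_mul_of_nonneg_left hn0 (by positivity : 0 ≤ ε / 160)
      have h5 : ε / 160 * (160 / ε) = 1 := by field_simp
      linarith
    nlinarith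
  have h3 : ε * T' ≤ ε * (20 * h) := mul_le_mul_of_nonneg_left (hTT.trans hT) hε.le
  have h4 : C * d' ≤ C * d := mul_le_mul_of_nonneg_left hd hC
  rw [le_div_iff₀ hε]
  nlinarith

theorem fiq (hMSM : MsqStmt) (hREX : RexStatement) (hDSH : DshStatement)
    (hQVN : QvnStatement) (hGPR : GprStatement) (hDED : UBT.DedStmt) : SzqStmt := by
  classical
  intro d ε hε
  obtain ⟨Cc, hCc, hmsm⟩ := hMSM
  obtain ⟨n₀, hn₀⟩ := exists_nat_ge (160 / ε)
  have hn₀pos : 0 < n₀ := by
    rcases Nat.eq_zero_or_pos n₀ with h | h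
    · rw [h, Nat.cast_zero] at hn₀
      exact absurd hn₀ (not_le.2 (by positivity))
    · exact h
  obtain ⟨N₁, hN₁0, hN₁⟩ := H44.exists_N1 (ε / 160) (by positivity)
  obtain ⟨B₁, hB₁⟩ := hGPR d (Real.exp (20 * (24 * Cc * d / ε)))
  refine ⟨max (n₀.factorial * N₁) B₁, ?_⟩
  intro K _ _ hd Y hmon hdeg hint S hS hmain c hc
  haveI hded : IsDedekindDomain (Q K Y.f) := hDED K Y.f two_ne_zero Y.sqfree
  set m₀ := n₀.factorial with hm₀
  have hm₀pos : 0 < m₀ := Nat.factorial_pos n₀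
  have hfin : IsOfFinOrder (c ^ m₀) := hc.pow
  set N := orderOf (c ^ m₀) with hNdef
  have hNpos : 0 < N := orderOf_pos_iff.2 hfin
  have hpow : (c ^ m₀) ^ N = 1 := pow_orderOf_eq_one _
  have hle : orderOf c ≤ m₀ * N := by
    apply Nat.le_of_dvd (Nat.mul_pos hm₀pos hNpos)
    apply orderOf_dvd_of_pow_eq_one
    rw [pow_mul]
    exact hpow
  rcases lt_or_ge N N₁ with hlt | hge
  · exact (hle.trans (Nat.mul_le_mul_left _ hlt.le)).trans (le_max_left _ _)
  refine le_trans ?_ (le_max_right _ _)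
  -- the ideals
  have h2 : (2 : K) ≠ 0 := two_ne_zero
  obtain ⟨A₁, B₁', hI, hmum, _, hcl⟩ := hREX K Y.f h2 Y.sqfree hdeg c
  have hclk : ∀ k : ℕ, ClassGroup.mk0 ((⟨MI Y.f A₁ B₁', hI⟩ :
      nonZeroDivisors (Ideal (Q K Y.f))) ^ k) = c ^ k := by
    intro k
    rw [map_pow, hcl]
  have hprin : ∀ k : ℕ, ((MI Y.f A₁ B₁') ^ k).IsPrincipal ↔ c ^ k = 1 := by
    intro k
    rw [← hclk k]
    exact (ClassGroup.mk0_eq_one_iff (I := (MI Y.f A₁ B₁') ^ k) (pow_mem hI k)).symm
  choose A B hA hAmum hAdeg hAcl using fun k : ℕ => hREX K Y.f h2 Y.sqfree hdeg (c ^ (m₀ * k))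
  have hsame : ∀ k, SameCl (MI Y.f (A k) (B k)) ((MI Y.f A₁ B₁') ^ (m₀ * k)) := by
    intro k
    have h3 := (hAcl k).trans (hclk (m₀ * k)).symm
    rw [ClassGroup.mk0_eq_mk0_iff] at h3
    obtain ⟨a, b, ha, hb, hab⟩ := h3
    exact ⟨a, b, ha, hb, hab⟩
  obtain ⟨G, hG1, hG2, hG3⟩ := hmsm K Y.f A₁ B₁' m₀ n₀ N A B S hmon hdeg Y.sqfree hint hmum hNpos
    hm₀pos (fun n h0 h1 => Nat.dvd_factorial h0 h1)
    ((hprin (m₀ * N)).2 (by rw [pow_mul]; exact hpow))
    (by
      intro j hj0 hjN hpr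
      rw [hprin, pow_mul] at hpr
      exact absurd (Nat.le_of_dvd hj0 (orderOf_dvd_of_pow_eq_one hpr)) (not_le.2 hjN))
    (fun k => ⟨hAmum k, hAdeg k, hsame k⟩) hS
  obtain ⟨hD0, _, hh0, hnorm, hsum, _⟩ := hDSH K Y.f hmon hdeg Y.sqfree hint
  -- the valuations
  have hl0 : ∀ v ∈ S, 0 < - Real.log (v (discr Y.f)) := by
    intro v hv
    have h3 : 0 < v (discr Y.f) := lt_of_le_of_ne (apply_nonneg v _)
      (Ne.symm ((map_ne_zero v).2 hD0))
    linarith [Real.log_neg h3 (hS v hv).2]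
  have hval : ∀ v ∈ S, ∃ n : ℕ, 0 < n ∧
      v (discr Y.f) * (Ideal.absNorm v.maximalIdeal.asIdeal : ℝ) ^ n = 1 :=
    fun v hv => hQVN K v _ hD0 (hS v hv).2
  have hNv : ∀ v ∈ S, (1 : ℝ) ≤ (Ideal.absNorm v.maximalIdeal.asIdeal : ℝ) := by
    intro v hv
    obtain ⟨n, hn, h3⟩ := hval v hv
    have h4 : Ideal.absNorm v.maximalIdeal.asIdeal ≠ 0 := by
      intro h5
      rw [h5, Nat.cast_zero, zero_pow hn.ne', mul_zero] at h3
      exact zero_ne_one h3
    exact_mod_cast Nat.one_le_iff_ne_zero.2 h4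
  have hlog : ∀ v ∈ S, ∀ n : ℕ, 0 < n →
      v (discr Y.f) * (Ideal.absNorm v.maximalIdeal.asIdeal : ℝ) ^ n = 1 →
      - Real.log (v (discr Y.f)) = n * Real.log (Ideal.absNorm v.maximalIdeal.asIdeal) := by
    intro v hv n hn h3
    have h4 : 0 < v (discr Y.f) := lt_of_le_of_ne (apply_nonneg v _)
      (Ne.symm ((map_ne_zero v).2 hD0))
    have h5 := congrArg Real.log h3
    have h6 : (0 : ℝ) < (Ideal.absNorm v.maximalIdeal.asIdeal : ℝ) :=
      lt_of_lt_of_le one_pos (hNv v hv)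
    rw [Real.log_mul h4.ne' (pow_pos h6 n).ne', Real.log_pow, Real.log_one] at h5
    linarith
  have hR := H44.sum_R S (fun v => v (discr Y.f) *
      (Ideal.absNorm v.maximalIdeal.asIdeal : ℝ) ^ n₀ < 1)
    (fun v => - Real.log (v (discr Y.f)))
    (fun v => Real.log (Ideal.absNorm v.maximalIdeal.asIdeal)) (n₀ : ℝ)
    (by
      intro v hv hP
      obtain ⟨n, hn, h3⟩ := hval v hv
      have h4 : n₀ < n := by
        by_contra h5
        have h6 := pow_le_pow_right₀ (hNv v hv) (not_lt.1 h5)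
        have h7 := mul_le_mul_of_nonneg_left h6 (apply_nonneg v (discr Y.f))
        linarith
      have h8 := hlog v hv n hn h3
      have h9 := Real.log_nonneg (hNv v hv)
      rw [le_div_iff₀ (by exact_mod_cast hn₀pos)]
      rw [h8]
      have h10 : (n₀ : ℝ) ≤ n := by exact_mod_cast h4.le
      nlinarith)
    (by
      intro v hv _
      obtain ⟨n, hn, h3⟩ := hval v hv
      have h8 := hlog v hv n hn h3
      have h9 := Real.log_nonneg (hNv v hv)
      have h10 : (1 : ℝ) ≤ n := by exact_mod_cast hn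
      show Real.log (Ideal.absNorm v.maximalIdeal.asIdeal) ≤ - Real.log (v (discr Y.f))
      rw [h8]
      nlinarith)
  have hNG := hN₁ N G hge hG1
  have hGpos : (0 : ℝ) < G := by
    have h3 : (0 : ℝ) < N := by exact_mod_cast hNpos
    have h4 : 0 < (1 + ε / 160) * (G : ℝ) := lt_of_lt_of_le h3 hNG
    exact pos_of_mul_pos_right h4 (by positivity)
  have hT'0 : 0 ≤ ∑ v ∈ S with v (discr Y.f) *
      (Ideal.absNorm v.maximalIdeal.asIdeal : ℝ) ^ n₀ < 1, (- Real.log (v (discr Y.f))) := by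
    apply Finset.sum_nonneg
    intro v hv
    exact (hl0 v (Finset.mem_filter.1 hv).1).le
  have hT'T : ∑ v ∈ S with v (discr Y.f) *
      (Ideal.absNorm v.maximalIdeal.asIdeal : ℝ) ^ n₀ < 1, (- Real.log (v (discr Y.f))) ≤
      ∑ v ∈ S, (- Real.log (v (discr Y.f))) := by
    apply Finset.sum_le_sum_of_subset_of_nonneg (Finset.filter_subset _ _)
    intro v hv _
    exact (hl0 v hv).le
  have hT20 : ∑ v ∈ S, (- Real.log (v (discr Y.f))) ≤ 20 * lH Y.f := by
    rw [Finset.sum_neg_distrib]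
    exact hsum S
  have hmain' : (24 + ε) * lH Y.f ≤
      2 * (∑ v ∈ S, Real.log (Ideal.absNorm v.maximalIdeal.asIdeal)) +
        ∑ v ∈ S, (- Real.log (v (discr Y.f))) := by
    rw [Finset.sum_add_distrib, ← Finset.mul_sum] at hmain
    exact hmain
  have hbound : lH Y.f ≤ 24 * Cc * d / ε := by
    refine num_coreq (G := G) (N := N) (d' := Module.finrank ℚ K) hε hn₀ hT'0 hT'T hT20 hR hGpos
      hNG ?_ hCc (by exact_mod_cast hd) hmain'
    rw [Finset.sum_neg_distrib, Finset.sum_neg_distrib]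
    exact hG3
  refine hB₁ K hd Y hmon hdeg hint (hnorm.trans ?_) c hc
  exact Real.exp_le_exp.2 (by linarith)

end Pool.Agent.AQT.H89
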