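import Pool.Agent.Helper89_AQT.FIQ
import Pool.Agent.Helper89_SZT.Final0

set_option autoImplicit false

/-! AQT: the theorem `R ^ 2 * D >= H ^ (24 + ε)` implies bounded torsion. -/

namespace Pool.Agent.AQT.H89

open Pool.Agent.SZT Pool.Agent.AQT

theorem msqf : MsqStmt :=
  have mii := H21.mii
  have mik := H77.mik
  have unq := H95.unq mii mik (H26.nrp mii)
  have pai := H10.pai unq (Pool.Agent.Helper92_SZT.pro mik) mii
  have cnt := H98.cnt mii pai H27.sid (H25.bdk mik)
  have dsr := H38.dsr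
  msq cnt (H88.pel mii mik) H86.pfs (liq aoq dsr) (lfq aoq dsr UBT.ext1 BHT.ev)
    Pool.Agent.SZT.H89.bout H34.avg (H69.dsh dsr) H86.qvn

theorem final : SzqStmt :=
  fiq msqf H76.rex (H69.dsh H38.dsr) H86.qvn (H62.gpr H58Q.loc H58Q.ded) H58Q.ded

end Pool.Agent.AQT.H89
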