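import Pool.Agent.AQT.Stmts

set_option autoImplicit false

/-! AQT, row PUI: the pure inequality. -/

namespace Pool.Agent.AQT.H89

open Pool.Agent.AQT

theorem star_eq (h : Fin 5 → ℝ) (i : Fin 5) : star h i = ∑ k, h k - h i := by
  unfold star
  rw [Finset.sum_erase_eq_sub (Finset.mem_univ i)]

theorem le_amax (h : Fin 5 → ℝ) (i k : Fin 5) (hk : k ≠ i) : h k ≤ amax h i :=
  le_ciSup (f := fun k : {k : Fin 5 // k ≠ i} => h k) (Set.finite_range _).bddAbove ⟨k, hk⟩

theorem amax_att (h : Fin 5 → ℝ) (i : Fin 5) : ∃ k, k ≠ i ∧ h k = amax h i := by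
  have : Nonempty {k : Fin 5 // k ≠ i} := ⟨⟨i + 1, by fin_cases i <;> decide⟩⟩
  obtain ⟨k, hk⟩ := exists_eq_ciSup_of_finite (f := fun k : {k : Fin 5 // k ≠ i} => h k)
  exact ⟨k, k.2, hk⟩

theorem sum_min_le (h : Fin 5 → ℝ) (i : Fin 5) (t : ℝ) :
    t + ∑ k ∈ Finset.univ.erase i, min t (h k) ≤ 2 * t + star h i - amax h i := by
  obtain ⟨k, hk, hka⟩ := amax_att h i
  have hmem : k ∈ Finset.univ.erase i := Finset.mem_erase.2 ⟨hk, Finset.mem_univ k⟩
  unfold star
  rw [← Finset.add_sum_erase _ _ hmem, ← Finset.add_sum_erase _ (fun k => h k) hmem]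
  have h1 : ∑ l ∈ (Finset.univ.erase i).erase k, min t (h l) ≤
      ∑ l ∈ (Finset.univ.erase i).erase k, h l :=
    Finset.sum_le_sum fun l _ => min_le_right _ _
  have h2 : min t (h k) ≤ t := min_le_left _ _
  linarith

/-- the first bound -/
theorem tq_pos (h : Fin 5 → ℝ) (i : Fin 5) (η δ c₀ m : ℝ) (hη : 0 < η) (hc : 0 ≤ c₀) (hm : 0 ≤ m)
    (hma : m ≤ amax h i) :
    ∃ α : ℝ, 0 ≤ α ∧ α ≤ 1 ∧ α * m ≤ min η m ∧ ∀ β : ℝ, 0 ≤ β → β ≤ 1 → β * m - c₀ ≤ δ →
      TQ h i η δ ≤ star h i - amax h i * (1 - α) ^ 2 - α * β * m + c₀ := by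
  rcases le_or_gt η (amax h i) with ha | ha
  · have ha0 : 0 < amax h i := lt_of_lt_of_le hη ha
    set a := amax h i with had
    have hα0 : 0 ≤ η / a := div_nonneg hη.le ha0.le
    have hα1 : η / a ≤ 1 := (div_le_one ha0).2 ha
    have hαa : η / a * a = η := div_mul_cancel₀ η ha0.ne'
    refine ⟨η / a, hα0, hα1, ?_, ?_⟩
    · refine le_min ?_ ?_
      · calc η / a * m ≤ η / a * a := mul_le_mul_of_nonneg_left hma hα0
          _ = η := hαa
      · calc η / a * m ≤ 1 * m := mul_le_mul_of_nonneg_right hα1 hm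
          _ = m := one_mul m
    · intro β hβ0 hβ1 hβ
      have hβm : β * m ≤ m := by
        calc β * m ≤ 1 * m := mul_le_mul_of_nonneg_right hβ1 hm
          _ = m := one_mul m
      have hβm0 : 0 ≤ β * m := mul_nonneg hβ0 hm
      have h1 : β * m - c₀ ≤ min a δ := le_min (by linarith) hβ
      have h2 : - c₀ ≤ min 0 δ := le_min (by linarith) (by linarith)
      unfold TQ
      rw [if_neg (not_le.2 hη), if_pos ha]
      have h3 := sum_min_le h i η
      rw [← had] at h3
      have h4 : η / a * (η + (β * m - c₀)) ≤ η / a * (η + min a δ) :=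
        mul_le_mul_of_nonneg_left (by linarith) hα0
      have h5 : (1 - η / a) * (- c₀) ≤ (1 - η / a) * min 0 δ :=
        mul_le_mul_of_nonneg_left h2 (by linarith)
      have h6 : 2 * η + star h i - a - η / a * (η + (β * m - c₀)) - (1 - η / a) * (- c₀) =
          star h i - a * (1 - η / a) ^ 2 - η / a * β * m + c₀ := by
        have e1 : η / a * η = a * (η / a) ^ 2 := by field_simp
        have e2 : a * (1 - η / a) ^ 2 = a - 2 * η + η / a * η := by field_simp; ring
        rw [e2]; ring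
      linarith
  · refine ⟨1, zero_le_one, le_rfl, ?_, ?_⟩
    · rw [one_mul]
      exact le_min (by linarith) le_rfl
    · intro β hβ0 hβ1 hβ
      have hβm : β * m ≤ m := by
        calc β * m ≤ 1 * m := mul_le_mul_of_nonneg_right hβ1 hm
          _ = m := one_mul m
      unfold TQ
      rw [if_neg (not_le.2 hη), if_neg (not_le.2 ha)]
      have h1 : β * m - c₀ ≤ min η δ := le_min (by linarith) hβ
      have h2 : star h i - amax h i * (1 - 1) ^ 2 - 1 * β * m + c₀ = star h i - (β * m - c₀) := by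
        ring
      rw [h2]
      linarith

/-- the second bound -/
theorem tq_pos' (h : Fin 5 → ℝ) (i : Fin 5) (ζ δ c₀ η : ℝ) (hζ : 0 < ζ) (hη : η ≤ 0)
    (hc : 0 ≤ c₀) (ha0 : 0 ≤ amax h i) (hδ : η - c₀ ≤ δ) :
    TQ h i ζ δ ≤ star h i - η + c₀ := by
  rcases le_or_gt ζ (amax h i) with ha | ha
  · have ha0 : 0 < amax h i := lt_of_lt_of_le hζ ha
    set a := amax h i with had
    have hα0 : 0 ≤ ζ / a := div_nonneg hζ.le ha0.le
    have hα1 : ζ / a ≤ 1 := (div_le_one ha0).2 ha
    unfold TQ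
    rw [if_neg (not_le.2 hζ), if_pos ha]
    have h1 : η - c₀ ≤ min a δ := le_min (by linarith) hδ
    have h2 : η - c₀ ≤ min 0 δ := le_min (by linarith) hδ
    have h3 := sum_min_le h i ζ
    rw [← had] at h3
    have h4 : ζ / a * (ζ + (η - c₀)) ≤ ζ / a * (ζ + min a δ) :=
      mul_le_mul_of_nonneg_left (by linarith) hα0
    have h5 : (1 - ζ / a) * (η - c₀) ≤ (1 - ζ / a) * min 0 δ :=
      mul_le_mul_of_nonneg_left h2 (by linarith)
    have h6 : 2 * ζ + star h i - a - ζ / a * (ζ + (η - c₀)) - (1 - ζ / a) * (η - c₀) =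
        star h i - a * (1 - ζ / a) ^ 2 - η + c₀ := by
      have e2 : a * (1 - ζ / a) ^ 2 = a - 2 * ζ + ζ / a * ζ := by field_simp; ring
      rw [e2]; ring
    have h7 : 0 ≤ a * (1 - ζ / a) ^ 2 := mul_nonneg ha0.le (sq_nonneg _)
    linarith
  · unfold TQ
    rw [if_neg (not_le.2 hζ), if_neg (not_le.2 ha)]
    have h1 : η - c₀ ≤ min ζ δ := le_min (by linarith) hδ
    linarith

theorem tq_neg (h : Fin 5 → ℝ) (i : Fin 5) (η δ c₀ : ℝ) (hη : η ≤ 0)
    (hc : 0 ≤ c₀) (hδ : - c₀ ≤ δ) : TQ h i η δ ≤ 3 * η + c₀ := by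
  unfold TQ
  rw [if_pos hη]
  have h1 : η - c₀ ≤ min η δ := le_min (by linarith) (by linarith)
  linarith

/-- two different stars -/
theorem two_stars (H : Fin 5 → Fin 5 → ℝ) (i j : Fin 5) (hs : ∀ k l, H k l = H l k)
    (hp : ∀ k l, k ≠ l → 0 ≤ H k l) (hij : i ≠ j) :
    star (H i) i + star (H j) j - H i j ≤ 1 / 2 * ∑ k, star (H k) k := by
  have e : ∀ k, star (H k) k = ∑ l, H k l - H k k := fun k => star_eq _ _
  simp only [e, Fin.sum_univ_five]
  have h01 := hp 0 1 (by decide)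
  have h02 := hp 0 2 (by decide)
  have h03 := hp 0 3 (by decide)
  have h04 := hp 0 4 (by decide)
  have h12 := hp 1 2 (by decide)
  have h13 := hp 1 3 (by decide)
  have h14 := hp 1 4 (by decide)
  have h23 := hp 2 3 (by decide)
  have h24 := hp 2 4 (by decide)
  have h34 := hp 3 4 (by decide)
  have s10 := hs 1 0
  have s20 := hs 2 0
  have s30 := hs 3 0
  have s40 := hs 4 0
  have s21 := hs 2 1
  have s31 := hs 3 1
  have s41 := hs 4 1
  have s32 := hs 3 2
  have s42 := hs 4 2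
  have s43 := hs 4 3
  fin_cases i <;> fin_cases j <;>
    first
    | exact absurd rfl hij
    | (dsimp only [Fin.zero_eta, Fin.mk_one, Fin.reduceFinMk]; linarith)

theorem star_nonneg (H : Fin 5 → Fin 5 → ℝ) (hp : ∀ k l, k ≠ l → 0 ≤ H k l) (i : Fin 5) :
    0 ≤ star (H i) i :=
  Finset.sum_nonneg fun k hk => hp i k (Finset.mem_erase.1 hk).1.symm

theorem le_star (H : Fin 5 → Fin 5 → ℝ) (hp : ∀ k l, k ≠ l → 0 ≤ H k l) (i k : Fin 5)
    (hk : k ≠ i) : H i k ≤ star (H i) i :=
  Finset.single_le_sum (f := fun k => H i k) (fun k hk => hp i k (Finset.mem_erase.1 hk).1.symm)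
    (Finset.mem_erase.2 ⟨hk, Finset.mem_univ k⟩)

theorem one_star (H : Fin 5 → Fin 5 → ℝ) (i : Fin 5) (hs : ∀ k l, H k l = H l k)
    (hp : ∀ k l, k ≠ l → 0 ≤ H k l) :
    star (H i) i ≤ 1 / 2 * ∑ k, star (H k) k := by
  obtain ⟨j, hj⟩ : ∃ j : Fin 5, j ≠ i := ⟨i + 1, by fin_cases i <;> decide⟩
  have h1 := two_stars H i j hs hp hj.symm
  have h2 := le_star H hp j i hj.symm
  rw [hs j i] at h2
  linarith

theorem star_amax (H : Fin 5 → Fin 5 → ℝ) (i : Fin 5) (c₀ : ℝ) (hs : ∀ k l, H k l = H l k)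
    (hp : ∀ k l, k ≠ l → 0 ≤ H k l)
    (hu : ∀ k l m, k ≠ l → l ≠ m → k ≠ m → min (H k l) (H l m) - c₀ ≤ H k m) :
    2 * star (H i) i - amax (H i) i - 3 * c₀ ≤ 1 / 2 * ∑ k, star (H k) k := by
  obtain ⟨j, hj, hja⟩ := amax_att (H i) i
  have h1 := two_stars H i j hs hp hj.symm
  have h2 : star (H i) i - 3 * c₀ ≤ star (H j) j := by
    have m1 : j ∈ Finset.univ.erase i := Finset.mem_erase.2 ⟨hj, Finset.mem_univ j⟩
    have m2 : i ∈ Finset.univ.erase j := Finset.mem_erase.2 ⟨hj.symm, Finset.mem_univ i⟩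
    unfold star
    rw [← Finset.add_sum_erase _ (fun k => H i k) m1, ← Finset.add_sum_erase _ (fun k => H j k) m2]
    have e1 : (Finset.univ.erase j).erase i = (Finset.univ.erase i).erase j := by
      rw [Finset.erase_right_comm]
    rw [e1]
    have h3 : ∑ l ∈ (Finset.univ.erase i).erase j, (H i l - c₀) ≤
        ∑ l ∈ (Finset.univ.erase i).erase j, H j l := by
      apply Finset.sum_le_sum
      intro l hl
      have hlj : l ≠ j := (Finset.mem_erase.1 hl).1
      have hli : l ≠ i := (Finset.mem_erase.1 (Finset.mem_erase.1 hl).2).1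
      have h4 := hu j i l hj hli.symm hlj.symm
      have h5 : H i l ≤ H j i := by
        rw [hs j i, hja]
        exact le_amax (H i) i l hli
      rw [min_eq_right h5] at h4
      exact h4
    have hcard : ((Finset.univ.erase i).erase j).card = 3 := by
      rw [Finset.card_erase_of_mem m1, Finset.card_erase_of_mem (Finset.mem_univ i)]
      simp
    rw [Finset.sum_sub_distrib, Finset.sum_const, hcard] at h3
    have e2 := hs i j
    simp only [nsmul_eq_mul, Nat.cast_ofNat] at h3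
    linarith
  rw [← hja]
  linarith

theorem pui : PuiStmt := by
  intro H i j c₀ η ζ δ δ' hc hs hp hu heq hne
  have ha : 0 ≤ amax (H i) i := by
    obtain ⟨k, hk, hka⟩ := amax_att (H i) i
    rw [← hka]
    exact hp i k hk.symm
  have hb : 0 ≤ amax (H j) j := by
    obtain ⟨k, hk, hka⟩ := amax_att (H j) j
    rw [← hka]
    exact hp j k hk.symm
  -- the number `m`
  obtain ⟨m, hm0, hma, hmb, hδ, hδ', hD⟩ : ∃ m : ℝ, 0 ≤ m ∧ m ≤ amax (H i) i ∧
      m ≤ amax (H j) j ∧ min ζ m - c₀ ≤ δ ∧ min η m - c₀ ≤ δ' ∧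
      star (H i) i + star (H j) j - m - 3 * c₀ ≤ 1 / 2 * ∑ k, star (H k) k := by
    by_cases hij : i = j
    · obtain ⟨h1, h2⟩ := heq hij
      subst hij
      refine ⟨amax (H i) i, ha, le_rfl, le_rfl, ?_, ?_, ?_⟩
      · rw [h1]
        have := min_le_left ζ (amax (H i) i)
        linarith
      · rw [h2]
        have := min_le_left η (amax (H i) i)
        linarith
      · have := star_amax H i c₀ hs hp hu
        linarith
    · obtain ⟨h1, h2⟩ := hne hij
      refine ⟨H i j, hp i j hij, le_amax (H i) i j (Ne.symm hij), ?_, h1, h2, ?_⟩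
      · rw [hs i j]
        exact le_amax (H j) j i hij
      · have := two_stars H i j hs hp hij
        linarith
  have hD1 := one_star H i hs hp
  have hD2 := one_star H j hs hp
  have hsi := star_nonneg H hp i
  rcases le_or_gt η 0 with h1 | h1
  · rcases le_or_gt ζ 0 with h2 | h2
    · -- both far
      have e1 : min ζ m = ζ := min_eq_left (h2.trans hm0)
      have e2 : min η m = η := min_eq_left (h1.trans hm0)
      rw [e1] at hδ
      rw [e2] at hδ'
      unfold TQ
      rw [if_pos h1, if_pos h2]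
      have h3 : min η ζ - c₀ ≤ min η δ :=
        le_min (by have := min_le_left η ζ; linarith) (by have := min_le_right η ζ; linarith)
      have h4 : min η ζ - c₀ ≤ min ζ δ' :=
        le_min (by have := min_le_right η ζ; linarith) (by have := min_le_left η ζ; linarith)
      have h5 : 4 * η + 4 * ζ - 2 * min η ζ ≤ 0 := by
        rcases le_total η ζ with h | h
        · rw [min_eq_left h]; linarith
        · rw [min_eq_right h]; linarith
      linarith
    · have h3 : - c₀ ≤ δ := by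
        have : 0 ≤ min ζ m := le_min h2.le hm0
        linarith
      have e2 : min η m = η := min_eq_left (h1.trans hm0)
      rw [e2] at hδ'
      have h4 := tq_neg (H i) i η δ c₀ h1 hc h3
      have h5 := tq_pos' (H j) j ζ δ' c₀ η h2 h1 hc hb hδ'
      linarith
  · rcases le_or_gt ζ 0 with h2 | h2
    · have h3 : - c₀ ≤ δ' := by
        have : 0 ≤ min η m := le_min h1.le hm0
        linarith
      have e2 : min ζ m = ζ := min_eq_left (h2.trans hm0)
      rw [e2] at hδ
      have h4 := tq_neg (H j) j ζ δ' c₀ h2 hc h3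
      have h5 := tq_pos' (H i) i η δ c₀ ζ h1 h2 hc ha hδ
      linarith
    · obtain ⟨α, hα0, hα1, hα, hA⟩ := tq_pos (H i) i η δ c₀ m h1 hc hm0 hma
      obtain ⟨β, hβ0, hβ1, hβ, hB⟩ := tq_pos (H j) j ζ δ' c₀ m h2 hc hm0 hmb
      have h3 := hA β hβ0 hβ1 (by linarith)
      have h4 := hB α hα0 hα1 (by linarith)
      have h5 : m * (1 - α) ^ 2 ≤ amax (H i) i * (1 - α) ^ 2 :=
        mul_le_mul_of_nonneg_right hma (sq_nonneg _)
      have h6 : m * (1 - β) ^ 2 ≤ amax (H j) j * (1 - β) ^ 2 :=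
        mul_le_mul_of_nonneg_right hmb (sq_nonneg _)
      have h7 : 0 ≤ m * (1 - α - β) ^ 2 := mul_nonneg hm0 (sq_nonneg _)
      nlinarith

end Pool.Agent.AQT.H89
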