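import Pool.Agent.AQT.Stmts
import Pool.Agent.Helper89_AQT.PUI
import Pool.Agent.Helper75_SZT.CVX
import Pool.Agent.Helper40_SZT.UVL

set_option autoImplicit false

/-! AQT, row PTQ: the bound for one point. -/

namespace Pool.Agent.AQT.H89

open Polynomial Pool.Agent.SZT Pool.Agent.AQT
open Pool.Agent.MNT (QU vC)
open scoped Classical

theorem pt_sum {E : Type} (a : Fin 2 → E) (j : Fin 2) (g : E → ℝ) :
    g (a 0) + g (a 1) = g (a j) + g (a (1 - j)) := by
  fin_cases j
  · simp
  · simp [add_comm]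

/-- the value of `f` at `x` -/
theorem fval {E : Type} [Field E] (v : AbsoluteValue E ℝ) (c₀ : ℝ) (hQ : QU v c₀)
    (θ : Fin 5 → E) (x : E) (i : Fin 5) (hθ : Function.Injective θ) (hx : ∀ k, x ≠ θ k)
    (hnear : ∀ k, v (x - θ i) ≤ v (x - θ k)) (ℓ : ℝ) :
    5 * ℓ - ((ℓ - Real.log (v (x - θ i))) + ∑ k ∈ Finset.univ.erase i,
        min (ℓ - Real.log (v (x - θ i))) (ℓ - Real.log (v (θ i - θ k)))) - 4 * c₀ ≤
      Real.log (v ((∏ k, (X - C (θ k))).eval x)) := by
  have h0 : ∀ k, 0 < v (x - θ k) := fun k => v.pos (sub_ne_zero.2 (hx k))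
  have h1 : Real.log (v ((∏ k, (X - C (θ k))).eval x)) = ∑ k, Real.log (v (x - θ k)) := by
    rw [eval_prod, map_prod, Real.log_prod]
    · refine Finset.sum_congr rfl fun k _ => ?_
      simp
    · intro k _
      have := (h0 k).ne'
      simpa using this
  rw [h1, ← Finset.add_sum_erase _ _ (Finset.mem_univ i)]
  have hi : ∀ k ∈ Finset.univ.erase i,
      ℓ - c₀ - min (ℓ - Real.log (v (x - θ i))) (ℓ - Real.log (v (θ i - θ k))) ≤
        Real.log (v (x - θ k)) := by
    intro k hk
    have hki : k ≠ i := (Finset.mem_erase.1 hk).1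
    have hpos : 0 < v (θ i - θ k) := v.pos (sub_ne_zero.2 fun h => hki (hθ h).symm)
    have h2 : Real.log (v (x - θ i)) ≤ Real.log (v (x - θ k)) :=
      Real.log_le_log (h0 i) (hnear k)
    have h3 : v (θ i - θ k) ≤ Real.exp c₀ * v (x - θ k) := by
      have e1 : θ i - θ k = (x - θ k) + -(x - θ i) := by ring
      rw [e1]
      refine (hQ.2 _ _).trans ?_
      refine mul_le_mul_of_nonneg_left ?_ (Real.exp_pos _).le
      rw [v.map_neg]
      exact max_le le_rfl (hnear k)
    have h4 : Real.log (v (θ i - θ k)) ≤ c₀ + Real.log (v (x - θ k)) := by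
      have := Real.log_le_log hpos h3
      rwa [Real.log_mul (Real.exp_pos _).ne' (h0 k).ne', Real.log_exp] at this
    have hc := hQ.1
    have h5 : ℓ - c₀ - Real.log (v (x - θ k)) ≤
        min (ℓ - Real.log (v (x - θ i))) (ℓ - Real.log (v (θ i - θ k))) :=
      le_min (by linarith) (by linarith)
    linarith
  have h6 := Finset.sum_le_sum hi
  rw [Finset.sum_sub_distrib, Finset.sum_const, Finset.card_erase_of_mem (Finset.mem_univ i)] at h6
  simp only [Finset.card_univ, Fintype.card_fin, nsmul_eq_mul] at h6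
  have h7 : ((5 - 1 : ℕ) : ℝ) = 4 := by norm_num
  rw [h7] at h6
  linarith

theorem ptq : PtqStmt := by
  intro E _ v c₀ e hQ he θ a N U W hθ hU hS hG ρ hρ0 hρ j i hne hnear
  have hc0 : 0 ≤ c₀ := hQ.1
  have hN : (0 : ℝ) < N := by exact_mod_cast hS.pos
  have hcard : (Multiset.card U.roots : ℝ) = 2 * N := by
    rw [← hU.natDegree_eq_card_roots, hS.deg]; push_cast; ring
  have hx : ∀ k, a j ≠ θ k := hne j
  have hxi : a j ≠ θ i := hx i
  have hr0 : 0 < v (a j - θ i) := v.pos (sub_ne_zero.2 hxi)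
  have hy0 : 0 < v (a (1 - j) - θ i) := v.pos (sub_ne_zero.2 (hne (1 - j) i))
  have hLx := H40.uvl E v c₀ hQ U hU hS.lead (a j) (θ i) hxi (hS.ev j)
  obtain ⟨-, hconv⟩ := H75.cvx E v U.roots (θ i)
  have hR1e : Real.log (Real.exp c₀ * ρ) = c₀ + Real.log ρ := by
    rw [Real.log_mul (Real.exp_pos _).ne' hρ0.ne', Real.log_exp]
  set ℓ : ℝ := c₀ + Real.log ρ with hℓ
  have hF := fval v c₀ hQ θ (a j) i hθ hx hnear ℓ
  set Fx : ℝ := Real.log (v ((∏ k, (X - C (θ k))).eval (a j))) with hFx
  set Lx : ℝ := Real.log (v (U.eval (a j))) with hLxd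
  set r : ℝ := v (a j - θ i) with hrd
  set y' : ℝ := v (a (1 - j) - θ i) with hyd
  set R₁ : ℝ := Real.exp c₀ * ρ with hR₁
  have hR10 : 0 < R₁ := mul_pos (Real.exp_pos _) hρ0
  set J : ℝ → ℝ := JJ v U.roots (θ i) with hJ
  rw [hcard] at hLx
  -- the logarithm of a maximum, in terms of depths
  have hlm : ∀ R S : ℝ, 0 < R → 0 < S →
      Real.log (max R S) = ℓ - min (ℓ - Real.log R) (ℓ - Real.log S) := by
    intro R S hR hS'
    rcases le_total R S with h | h
    · rw [max_eq_right h, min_eq_right (by linarith [Real.log_le_log hR h])]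
      ring
    · rw [max_eq_left h, min_eq_left (by linarith [Real.log_le_log hS' h])]
      ring
  have key : ∀ K : ℝ, J r ≤ N * K → 2 * (1 / (2 * (N : ℝ)) * Lx) ≤ 2 * c₀ + K := by
    intro K hK
    have h1 : Lx ≤ N * (2 * c₀ + K) := by
      have h2 : (N : ℝ) * (2 * c₀ + K) = 2 * N * c₀ + N * K := by ring
      rw [h2]; linarith
    have h3 : 2 * (1 / (2 * (N : ℝ)) * Lx) = Lx / N := by field_simp
    rw [h3, div_le_iff₀ hN]
    linarith
  have hHm : ∀ R : ℝ, Hm v U.roots a (θ i) R e →
      J R ≤ N * (Real.log (max R r) + Real.log (max R y') + e) := by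
    intro R h
    unfold Hm at h
    rw [hcard, pt_sum a j (fun z => Real.log (max R (v (z - θ i))))] at h
    have h2 : (2 * (N : ℝ)) / 2 = N := by ring
    rw [h2] at h
    exact h
  have hGi := hG i
  set h : Fin 5 → ℝ := fun k => ℓ - Real.log (v (θ i - θ k)) with hh
  set η : ℝ := ℓ - Real.log r with hη
  set δ : ℝ := ℓ - Real.log y' with hδ
  have hpos : ∀ k, k ≠ i → 0 < v (θ i - θ k) := fun k hk =>
    v.pos (sub_ne_zero.2 fun h => hk (hθ h).symm)
  have hh0 : ∀ k, k ≠ i → 0 ≤ h k := by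
    intro k hk
    have h1 : Real.log (v (θ i - θ k)) ≤ Real.log ρ := Real.log_le_log (hpos k hk) (hρ i k)
    simp only [hh]
    linarith
  -- the two kinds of radii
  have far : ∀ R : ℝ, R₁ ≤ R → Hm v U.roots a (θ i) R e := by
    intro R hR
    refine hGi R (hR10.trans_le hR) (Or.inr fun k => ?_)
    exact (mul_le_mul_of_nonneg_left (hρ k i) (Real.exp_pos _).le).trans hR
  have near : ∀ R : ℝ, 0 < R → amax h i ≤ ℓ - Real.log R → Hm v U.roots a (θ i) R e := by
    intro R hR hRa
    refine hGi R hR (Or.inl fun k hk => ?_)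
    have h1 := le_amax h i k hk
    simp only [hh] at h1
    have h2 : Real.log R ≤ Real.log (v (θ i - θ k)) := by linarith
    have h3 := (Real.log_le_log_iff hR (hpos k hk)).1 h2
    rwa [v.map_sub] at h3
  have hF' : 5 * ℓ - (η + ∑ k ∈ Finset.univ.erase i, min η (h k)) - 4 * c₀ ≤ Fx := hF
  rcases le_or_gt η 0 with hc | hc
  · -- far
    have hR : R₁ ≤ r := by
      have h1 : Real.log R₁ ≤ Real.log r := by rw [hR1e]; linarith
      exact (Real.log_le_log_iff hR10 hr0).1 h1
    have h1 := hHm r (far r hR)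
    rw [max_self, hlm r y' hr0 hy0] at h1
    have h2 := key _ h1
    have h3 : ∑ k ∈ Finset.univ.erase i, min η (h k) = 4 * η := by
      rw [Finset.sum_congr rfl (g := fun _ => η) (fun k hk =>
        min_eq_left (hc.trans (hh0 k (Finset.mem_erase.1 hk).1))), Finset.sum_const,
        Finset.card_erase_of_mem (Finset.mem_univ i)]
      simp
    rw [h3] at hF'
    unfold TQ
    rw [if_pos hc]
    linarith
  · rcases le_or_gt η (amax h i) with ha | ha
    · -- between
      have ha0 : 0 < amax h i := lt_of_lt_of_le hc ha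
      obtain ⟨k₀, hk₀, hk₀a⟩ := amax_att h i
      set A : ℝ := amax h i with hA
      set r₀ : ℝ := v (θ i - θ k₀) with hr₀
      have hr₀0 : 0 < r₀ := hpos k₀ hk₀
      have hlr₀ : Real.log r₀ = ℓ - A := by
        have h1 : ℓ - Real.log r₀ = A := hk₀a
        linarith
      have hrr : r₀ ≤ r := by
        have h1 : Real.log r₀ ≤ Real.log r := by rw [hlr₀]; linarith
        exact (Real.log_le_log_iff hr₀0 hr0).1 h1
      have hrR : r ≤ R₁ := by
        have h1 : Real.log r ≤ Real.log R₁ := by rw [hR1e]; linarith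
        exact (Real.log_le_log_iff hr0 hR10).1 h1
      set t : ℝ := η / A with ht
      have ht0 : 0 ≤ t := div_nonneg hc.le ha0.le
      have ht1 : t ≤ 1 := (div_le_one ha0).2 ha
      have htA : t * A = η := div_mul_cancel₀ η ha0.ne'
      have hlog : Real.log r = (1 - (1 - t)) * Real.log r₀ + (1 - t) * Real.log R₁ := by
        rw [hR1e, hlr₀]
        have h1 : Real.log r = ℓ - η := by rw [hη]; ring
        rw [h1, ← htA]
        ring
      have hcv := hconv r₀ r R₁ (1 - t) hr₀0 hr0 hR10 (by linarith) (by linarith) hlog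
      have h1 := hHm r₀ (near r₀ hr₀0 (by rw [hlr₀]; linarith))
      have h2 := hHm R₁ (far R₁ le_rfl)
      rw [max_eq_right hrr, hlm r₀ y' hr₀0 hy0, hlr₀] at h1
      rw [max_eq_left hrR, hlm R₁ y' hR10 hy0, hR1e] at h2
      have e1 : ℓ - (ℓ - A) = A := by ring
      have e2 : ℓ - ℓ = 0 := by ring
      rw [e1] at h1
      rw [e2] at h2
      have h4 : J r ≤ N * (2 * ℓ - t * (η + min A δ) - (1 - t) * min 0 δ + e) := by
        calc J r ≤ (1 - (1 - t)) * J r₀ + (1 - t) * J R₁ := hcv
          _ ≤ (1 - (1 - t)) * (N * (Real.log r + (ℓ - min A δ) + e)) +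
              (1 - t) * (N * (ℓ + (ℓ - min 0 δ) + e)) :=
              add_le_add (mul_le_mul_of_nonneg_left h1 (by linarith))
                (mul_le_mul_of_nonneg_left h2 (by linarith))
          _ = N * (2 * ℓ - t * (η + min A δ) - (1 - t) * min 0 δ + e) := by
              have h3 : Real.log r = ℓ - η := by rw [hη]; ring
              rw [h3]
              ring
      have h5 := key _ h4
      unfold TQ
      rw [if_neg (not_le.2 hc), if_pos ha]
      linarith
    · -- near
      have h1 := hHm r (near r hr0 ha.le)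
      rw [max_self, hlm r y' hr0 hy0] at h1
      have h2 := key _ h1
      have h3 : ∑ k ∈ Finset.univ.erase i, min η (h k) = star h i := by
        unfold star
        refine Finset.sum_congr rfl fun k hk => min_eq_right ?_
        exact (le_amax h i k (Finset.mem_erase.1 hk).1).trans ha.le
      rw [h3] at hF'
      unfold TQ
      rw [if_neg (not_le.2 hc), if_neg (not_le.2 ha)]
      linarith

end Pool.Agent.AQT.H89
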